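import Pool.Agent.Lib.helper21.Tasks

namespace Pool.Agent.Results.MP_eb0437_lc.Indep

open Cardinal Set MeasureTheory TopologicalSpace unitInterval Pool.Agent.Lib.helper21

/-- `φ` is a monotone `Gδ` hull operation on the class `D` of subsets of `[0,1]` -/
def GHull (D : Set (Set I)) (φ : Set I → Set I) : Prop :=
  (∀ A ∈ D, IsGδ (φ A) ∧ A ⊆ φ A ∧ volume (φ A) = volume A) ∧ ∀ A ∈ D, ∀ B ∈ D, A ⊆ B → φ A ⊆ φ B

def Fσ : Set (Set I) := {A | ∃ f : ℕ → Set I, (∀ n, IsClosed (f n)) ∧ ⋃ n, f n = A}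

/-- the weak Freese-Nation property of the power set of `ℕ` -/
def WFN : Prop := ∃ f : Set ℕ → Set (Set ℕ), (∀ a, (f a).Countable) ∧
  ∀ a b, a ⊆ b → ∃ c ∈ f a ∩ f b, a ⊆ c ∧ c ⊆ b

theorem pos (h : (𝔠 : Cardinal.{0}) = ℵ₁) : ∃ φ, GHull {A | MeasurableSet A} φ := by
  let W : Type := (#{A : Set I | MeasurableSet A}).ord.ToType
  obtain ⟨e⟩ : Nonempty (W ≃ {A : Set I | MeasurableSet A}) := Cardinal.eq.1 (mk_ord_toType _)
  have h1 : ∀ ξ : W, (Iio ξ).Countable := fun ξ => by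
    have := MeasurableSpace.cardinal_measurableSet_le_continuum
      ((MeasurableSpace.countable_countableGeneratingSet (α := I)).le_aleph0.trans
        aleph0_le_continuum)
    rw [MeasurableSpace.generateFrom_countableGeneratingSet, h] at this
    exact countable_iff_lt_aleph_one _ |>.2 ((mk_Iio_toType_ord_lt ξ).trans_le this)
  have h2 : ∀ (f : W → Set I) η ζ, (η < ζ → (e η).1 ⊆ e ζ → f η ⊆ f ζ) →
      (ζ < η → (e η).1 ⊆ e ζ → f η ⊆ f ζ) → (e η).1 ⊆ e ζ → f η ⊆ f ζ := fun f η ζ k1 k2 =>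
    (lt_trichotomy η ζ).elim k1 (Or.elim · (fun k _ => (congrArg f k).le) k2)
  obtain ⟨f, hf⟩ := Tasks.trans_rec (W := W) (S := Set I) (fun ξ f T => (IsGδ T ∧ (e ξ).1 ⊆ T ∧
    volume T = volume (e ξ).1) ∧ ∀ η < ξ, ((e η).1 ⊆ e ξ → f η ⊆ T) ∧ ((e ξ).1 ⊆ e η → T ⊆ f η))
    (fun ξ f g s h h' => ⟨h'.1, fun η k => h η k ▸ h'.2 η k⟩) fun ξ f k => by
      let M := (e ξ).1 ∪ ⋃ η ∈ {η < ξ | (e η).1 ⊆ e ξ}, f η
      have l1 : volume M ≤ volume (e ξ).1 := measure_mono_ae (ae_le_set.2 (measure_mono_null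
        (fun x hx => by
          obtain ⟨η, l1, l2⟩ := mem_iUnion₂.1 (hx.1.resolve_left hx.2)
          exact mem_biUnion (t := fun η => f η \ e η) l1.1 ⟨l2, fun l => hx.2 (l1.2 l)⟩)
        ((measure_biUnion_null_iff (h1 ξ)).2 fun η l => by
          rw [measure_diff (k η l).1.2.1 (MeasurableSet.nullMeasurableSet (e η).2) (measure_ne_top _ _),
            (k η l).1.2.2, tsub_self])))
      obtain ⟨u, -, l2, l3⟩ := exists_seq_strictAnti_tendsto' (zero_lt_one' ENNReal)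
      choose U l4 l5 l6 using fun n => M.exists_isOpen_lt_add (measure_ne_top volume _) (l2 n).1.ne'
      have l7 : M ⊆ (⋂ n, U n) ∩ ⋂ η ∈ {η < ξ | (e ξ).1 ⊆ e η}, f η := subset_inter
        (subset_iInter l4) (subset_iInter₂ fun η l => union_subset (l.2.trans (k η l.1).1.2.1)
          (iUnion₂_subset fun ζ l' => h2 f _ _ (fun m => ((k η l.1).2 ζ m).1)
            (fun m => ((k ζ l'.1).2 η m).2) (l'.2.trans l.2)))
      exact ⟨_, ⟨(IsGδ.iInter_of_isOpen l5).inter (.biInter ((h1 ξ).mono fun _ l => l.1)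
        fun η l => (k η l.1).1.1), subset_union_left.trans l7, le_antisymm (le_trans
          (ge_of_tendsto' (by simpa using l3.const_add (volume M)) fun n => (measure_mono
            (inter_subset_left.trans (iInter_subset U n))).trans (l6 n).le) l1)
          (measure_mono (subset_union_left.trans l7))⟩, fun η l => ⟨fun m => ((subset_biUnion_of_mem
            (u := f) (by exact ⟨l, m⟩)).trans subset_union_right).trans l7, fun m =>
              inter_subset_right.trans (biInter_subset_of_mem (by exact ⟨l, m⟩))⟩⟩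
  classical
  refine ⟨fun A => if k : MeasurableSet A then f (e.symm ⟨A, k⟩) else ∅,
    fun A (k : MeasurableSet A) => ?_, fun A (k : MeasurableSet A) B (k' : MeasurableSet B) l => ?_⟩
  · simpa only [dif_pos k, e.apply_symm_apply] using (hf (e.symm ⟨A, k⟩)).1
  · simp only [dif_pos k, dif_pos k']
    exact h2 f _ _ (fun m => ((hf _).2 _ m).1) (fun m => ((hf _).2 _ m).2) (by simpa using l)

theorem neg (h : WFN) (h' : ∀ S : Set I, #S ≤ ℵ₁ → volume S = 0) : ¬ ∃ φ, GHull Fσ φ := by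
  rintro ⟨φ, h1, h2⟩
  obtain ⟨w, h3, h4⟩ := h
  obtain ⟨b, h5⟩ := ((countable_countableBasis I).insert ∅).exists_eq_range (insert_nonempty _ _)
  choose! pt h6 using fun (c : Set ℕ) (k : ∃ x, x ∉ ⋃ n ∈ c, b n) => k
  have h7 : ∀ C : Set (Set ℕ), C.Countable → pt '' C ∈ Fσ := fun C k => by
    obtain ⟨g, k'⟩ := (((k.image pt).image fun x => ({x} : Set I)).insert ∅).exists_eq_range (insert_nonempty _ _)
    refine ⟨g, forall_mem_range.1 (k' ▸ by simp), ?_⟩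
    rw [← sUnion_range, ← k']
    ext
    simp [eq_comm]
  have h8 : ∀ C : Set (Set ℕ), C.Countable → ∃ T : Set (Set ℕ), T.Countable ∧ C ⊆ T ∧
      (∀ a ∈ C, w a ⊆ T) ∧ ∀ x ∉ φ (pt '' C), ∃ a ∈ T, pt '' C ⊆ ⋃ n ∈ a, b n ∧ ∀ n ∈ a, x ∉ b n :=
    fun C k => by
      obtain ⟨V, k1, k2⟩ := (h1 _ (h7 C k)).1.eq_iInter_nat
      refine ⟨(C ∪ ⋃ a ∈ C, w a) ∪ range fun m => {n | b n ⊆ V m}, (k.union (k.biUnion
        fun a _ => h3 a)).union (countable_range _), fun a l => .inl (.inl l),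
          fun a l c l' => .inl (.inr (mem_biUnion l l')), fun x l => ?_⟩
      obtain ⟨m, l'⟩ := not_forall.1 (mt mem_iInter.2 (k2 ▸ l))
      refine ⟨_, .inr ⟨m, rfl⟩, fun y k3 => ?_, fun n k3 k4 => l' (k3 k4)⟩
      obtain ⟨B, k4, k5, k6⟩ := (isBasis_countableBasis I).exists_subset_of_mem_open
        (mem_iInter.1 (k2 ▸ (h1 _ (h7 C k)).2.1 k3) m) (k1 m)
      obtain ⟨n, rfl⟩ := h5.le (.inr k4)
      exact mem_biUnion k6 k5
  choose! g k1 k2 k3 k4 using h8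
  let W : Type := (ℵ₁).ord.ToType
  have l1 : ∀ ξ : W, (Iio ξ).Countable := fun ξ =>
    (countable_iff_lt_aleph_one _).2 (mk_Iio_toType_ord_lt ξ)
  have l2 : ∀ s : Set W, s.Countable → ∃ ξ, ∀ η ∈ s, η < ξ := fun s k => by
    by_contra! l
    refine ((countable_iff_lt_aleph_one _).1 ((k.biUnion fun η _ => (l1 η).insert η).mono
      fun ξ (_ : ξ ∈ Set.univ) => ?_)).ne (by simp [W])
    obtain ⟨η, l3, l4⟩ := l ξ
    exact mem_biUnion l3 l4.eq_or_lt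
  obtain ⟨f, hf⟩ := Tasks.trans_rec (W := W) (S := Set (Set ℕ)) (fun ξ f T => T.Countable ∧
    ∀ η < ξ, g (f η) ⊆ T) (fun ξ f g s h h' => ⟨h'.1, fun η k => h η k ▸ h'.2 η k⟩) fun ξ f k =>
      ⟨_, (l1 ξ).biUnion fun η l => k1 _ (k η l).1, fun η l =>
        subset_biUnion_of_mem (u := fun η => g (f η)) l⟩
  have l3 : ∀ ξ, g (f ξ) ⊆ ⋃ η, f η := fun ξ => by
    obtain ⟨η, l⟩ := l2 _ (countable_singleton ξ)
    exact subset_iUnion_of_subset η ((hf η).2 ξ (l ξ rfl))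
  obtain ⟨O, m1, m2, m3⟩ := (pt '' ⋃ η, f η).exists_isOpen_lt_of_lt (μ := volume) 1 (by
    rw [h' _ (mk_image_le.trans ((mk_iUnion_le _).trans ((mul_le_mul' (by simp [W]) (ciSup_le'
      fun η => (hf η).1.le_aleph0.trans aleph0_lt_aleph_one.le)).trans_eq
        (mul_eq_self aleph0_lt_aleph_one.le))))]
    exact one_pos)
  have m4 : O ∈ Fσ := let ⟨F, l1, _, l2, _⟩ := m2.exists_iUnion_isClosed; ⟨F, l1, l2⟩
  refine m3.ne ((h1 O m4).2.2.symm.trans (eq_univ_of_forall (s := φ O) (fun x => ?_) ▸ measure_univ))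
  have : Nonempty W := ⟨(l2 ∅ countable_empty).choose⟩
  choose! r m5 using fun c (k : c ∈ ⋃ η, f η) => mem_iUnion.1 k
  obtain ⟨ξ, m6⟩ := l2 _ ((h3 {n | x ∉ b n}).image r)
  refine h2 _ (h7 _ (hf ξ).1) O m4 ((image_mono (subset_iUnion f ξ)).trans m1) (by_contra fun m7 => ?_)
  obtain ⟨a, n1, n2, n3⟩ := k4 _ (hf ξ).1 x m7
  obtain ⟨c, n4, n5, n6⟩ := h4 a _ n3
  refine h6 c ⟨x, fun l => let ⟨_, l, l'⟩ := mem_iUnion₂.1 l; n6 l l'⟩ (biUnion_subset_biUnion_left n5 (n2 (mem_image_of_mem _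
    ((hf ξ).2 _ (m6 _ (mem_image_of_mem r n4.2)) (k2 _ (hf _).1 (m5 c ?_))))))
  exact l3 _ (k3 _ (hf _).1 a (m5 a (l3 ξ n1)) n4.1)

theorem result : ((𝔠 : Cardinal.{0}) = ℵ₁ → ∃ φ, GHull {A | MeasurableSet A} φ) ∧
    (WFN → (∀ S : Set I, #S ≤ ℵ₁ → volume S = 0) → ¬ ∃ φ, GHull Fσ φ) := ⟨pos, neg⟩

end Pool.Agent.Results.MP_eb0437_lc.Indep
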